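import Mathlib

set_option autoImplicit false

namespace Pool.Agent.H.MP_7c4fde_an

open Polynomial Filter Topology

lemma coeff_mul_le (p y : ℂ[X]) (C M : ℝ) (hC : 0 ≤ C) (hp : ∀ k, ‖p.coeff k‖ ≤ C)
    (hy : ∀ k, ‖y.coeff k‖ ≤ M) (k : ℕ) : ‖(p * y).coeff k‖ ≤ (k + 1) * (C * M) := by
  rw [coeff_mul]
  refine (norm_sum_le _ _).trans ?_
  have : ∀ x ∈ Finset.HasAntidiagonal.antidiagonal k, ‖p.coeff x.1 * y.coeff x.2‖ ≤ C * M := fun x _ => by
    rw [norm_mul]; exact mul_le_mul (hp _) (hy _) (norm_nonneg _) hC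
  refine (Finset.sum_le_card_nsmul _ _ _ this).trans ?_
  simp

lemma inv0 (M κ : ℝ) (hκ : 0 < κ) (D : ℕ) : ∃ C : ℝ, 0 ≤ C ∧ ∀ y : ℂ[X],
    (∀ k, ‖y.coeff k‖ ≤ M) → κ ≤ ‖y.coeff 0‖ → ∃ p : ℂ[X], p.natDegree ≤ D ∧
      (∀ k, ‖p.coeff k‖ ≤ C) ∧ ∀ k ≤ D, (p * y - 1).coeff k = 0 := by
  induction D with
  | zero =>
    refine ⟨κ⁻¹, by positivity, fun y _ h0 => ⟨Polynomial.C (y.coeff 0)⁻¹, by simp, fun k => ?_, ?_⟩⟩
    · rw [coeff_C]
      split_ifs
      · rw [norm_inv]; exact inv_anti₀ hκ h0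
      · simp; positivity
    · intro k hk
      obtain rfl : k = 0 := by omega
      have : y.coeff 0 ≠ 0 := by
        intro h; rw [h] at h0; simp at h0; linarith
      simp [this]
  | succ D ih =>
    obtain ⟨C, hC, h⟩ := ih
    refine ⟨C + (D + 2) * (C * |M|) / κ, by positivity, fun y hy h0 => ?_⟩
    obtain ⟨p, hp, hpC, hpy⟩ := h y hy h0
    have hy0 : y.coeff 0 ≠ 0 := by
      intro h; rw [h] at h0; simp at h0; linarith
    set c : ℂ := (p * y).coeff (D + 1) / y.coeff 0 with hc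
    have hcn : ‖c‖ ≤ (D + 2) * (C * |M|) / κ := by
      rw [hc, norm_div]
      have := coeff_mul_le p y C |M| hC hpC (fun k => (hy k).trans (le_abs_self _)) (D + 1)
      push_cast at this
      have h2 : ‖(p * y).coeff (D + 1)‖ ≤ (D + 2) * (C * |M|) := by linarith
      gcongr
    refine ⟨p - monomial (D + 1) c, ?_, fun k => ?_, fun k hk => ?_⟩
    · refine (natDegree_sub_le _ _).trans (max_le (by omega) (natDegree_monomial_le _))
    · rw [coeff_sub]
      refine (norm_sub_le _ _).trans (add_le_add (hpC k) ?_)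
      rw [coeff_monomial]
      split_ifs
      · exact hcn
      · simp; positivity
    · have e : (p - monomial (D + 1) c) * y - 1 = (p * y - 1) - Polynomial.C c * (X ^ (D + 1) * y) := by
        rw [← C_mul_X_pow_eq_monomial]; ring
      rw [e, coeff_sub, coeff_C_mul, coeff_X_pow_mul']
      rcases Nat.lt_or_ge D k with h1 | h1
      · obtain rfl : k = D + 1 := by omega
        simp only [le_refl, if_true, Nat.sub_self, coeff_sub, hc]
        rw [coeff_one]; simp [hy0]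
      · rw [hpy k h1, if_neg (by omega)]; simp

lemma inv1 (M : ℝ) (D e : ℕ) : ∀ κ δ : ℝ, 0 < κ → 0 < δ → ∃ C : ℝ, 0 ≤ C ∧ ∀ y : ℂ[X],
    (∀ k, ‖y.coeff k‖ ≤ M) → (∃ i ≤ e, κ ≤ ‖y.coeff i‖) → ∃ p : ℂ[X], p.natDegree ≤ D + e ∧
      (∀ k, ‖p.coeff k‖ ≤ C) ∧ ∀ k ≤ D, ‖(p * y - X ^ e).coeff k‖ ≤ δ := by
  induction e with
  | zero =>
    intro κ δ hκ hδ
    obtain ⟨C, hC, h⟩ := inv0 M κ hκ D
    refine ⟨C, hC, fun y hy ⟨i, hi, h0⟩ => ?_⟩
    obtain rfl : i = 0 := by omega
    obtain ⟨p, h1, h2, h3⟩ := h y hy h0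
    exact ⟨p, h1, h2, fun k hk => by rw [pow_zero, h3 k hk]; simpa using hδ.le⟩
  | succ e ih =>
    intro κ δ hκ hδ
    obtain ⟨C, hC, h⟩ := ih κ (δ / 2) hκ (by positivity)
    set θ := min κ (δ / (2 * (C + 1))) with hθ
    have hθ0 : 0 < θ := lt_min hκ (by positivity)
    obtain ⟨C0, hC0, h0⟩ := inv0 M θ hθ0 D
    refine ⟨C + C0, by positivity, fun y hy ⟨i, hi, hyi⟩ => ?_⟩
    rcases le_or_gt θ ‖y.coeff 0‖ with h1 | h1
    · obtain ⟨p, hp1, hp2, hp3⟩ := h0 y hy h1
      refine ⟨X ^ (e + 1) * p, ?_, fun k => ?_, fun k hk => ?_⟩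
      · refine natDegree_mul_le.trans ?_
        have := natDegree_X_pow_le (R := ℂ) (e + 1); omega
      · rw [coeff_X_pow_mul']
        split_ifs
        · linarith [hp2 (k - (e + 1))]
        · simp; positivity
      · have : X ^ (e + 1) * p * y - X ^ (e + 1) = X ^ (e + 1) * (p * y - 1) := by ring
        rw [this, coeff_X_pow_mul']
        split_ifs
        · rw [hp3 _ (by omega)]; simpa using hδ.le
        · simpa using hδ.le
    · have hi0 : i ≠ 0 := by
        rintro rfl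
        linarith [min_le_left κ (δ / (2 * (C + 1)))]
      obtain ⟨i, rfl⟩ := Nat.exists_eq_succ_of_ne_zero hi0
      obtain ⟨p, hp1, hp2, hp3⟩ := h y.divX (fun k => by rw [coeff_divX]; exact hy _)
        ⟨i, by omega, by rw [coeff_divX]; exact hyi⟩
      refine ⟨p, by omega, fun k => by linarith [hp2 k], fun k hk => ?_⟩
      have : p * y - X ^ (e + 1) = X ^ 1 * (p * y.divX - X ^ e) + Polynomial.C (y.coeff 0) * p := by
        conv_lhs => rw [← divX_mul_X_add y]
        ring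
      rw [this, coeff_add, coeff_X_pow_mul', coeff_C_mul]
      refine (norm_add_le _ _).trans ?_
      have a1 : ‖if 1 ≤ k then (p * y.divX - X ^ e).coeff (k - 1) else 0‖ ≤ δ / 2 := by
        split_ifs
        · exact hp3 _ (by omega)
        · simp; positivity
      have a2 : ‖y.coeff 0 * p.coeff k‖ ≤ δ / 2 := by
        rw [norm_mul]
        have b1 : ‖y.coeff 0‖ ≤ δ / (2 * (C + 1)) := h1.le.trans (min_le_right _ _)
        calc _ ≤ δ / (2 * (C + 1)) * (C + 1) :=
              mul_le_mul b1 (by linarith [hp2 k]) (norm_nonneg _) (by positivity)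
          _ = δ / 2 := by field_simp
      linarith

lemma inv2 (M κ δ : ℝ) (D : ℕ) : ∃ C : ℝ, 0 ≤ C ∧ (0 < κ → 0 < δ → ∀ e ≤ D, ∀ y : ℂ[X],
    (∀ k, ‖y.coeff k‖ ≤ M) → (∃ i ≤ e, κ ≤ ‖y.coeff i‖) → ∃ p : ℂ[X], p.natDegree ≤ 2 * D ∧
      (∀ k, ‖p.coeff k‖ ≤ C) ∧ ∀ k ≤ D, ‖(p * y - X ^ e).coeff k‖ ≤ δ) := by
  by_cases h : 0 < κ ∧ 0 < δ
  · choose C hC hh using fun e => inv1 M D e κ δ h.1 h.2
    refine ⟨∑ e ∈ Finset.range (D + 1), C e, Finset.sum_nonneg fun e _ => hC e,
      fun _ _ e he y hy hi => ?_⟩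
    obtain ⟨p, h1, h2, h3⟩ := hh e y hy hi
    refine ⟨p, by omega, fun k => (h2 k).trans ?_, h3⟩
    exact Finset.single_le_sum (fun e _ => hC e) (Finset.mem_range.2 (by omega))
  · exact ⟨0, le_rfl, fun h1 h2 => absurd ⟨h1, h2⟩ h⟩

lemma const_of_growth (F : ℂ → ℂ) (hF : Differentiable ℂ F) (h0 : ∀ z, F z ≠ 0)
    (hg : ∀ ε : ℝ, 0 < ε → ∃ K : ℝ, ∀ z, ‖F z‖ ≤ K * Real.exp (ε * ‖z‖)) (z : ℂ) : F z = F 0 := by
  have hd : Differentiable ℂ fun w => deriv F w / F w :=
    (hF.deriv).div hF h0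
  obtain ⟨g, hg'⟩ := hd.isExactOn_univ
  set h : ℂ → ℂ := fun w => g w - g 0 with hh
  have hhd : ∀ w, HasDerivAt h (deriv F w / F w) w := fun w =>
    (hg' w (Set.mem_univ _)).sub_const _
  have hconst : ∀ w, F w * Complex.exp (-h w) = F 0 := by
    intro w
    have : ∀ w, HasDerivAt (fun w => F w * Complex.exp (-h w)) 0 w := fun w => by
      have := (hF w).hasDerivAt.fun_mul ((hhd w).fun_neg.cexp)
      refine this.congr_deriv ?_
      have := h0 w
      field_simp; ring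
    have := is_const_of_deriv_eq_zero (fun w => (this w).differentiableAt)
      (fun w => (this w).deriv) w 0
    simpa [hh] using this
  have hFe : ∀ w, F w = F 0 * Complex.exp (h w) := fun w => by
    rw [← hconst w, mul_assoc, ← Complex.exp_add]; simp
  have hF0 : 0 < ‖F 0‖ := norm_pos_iff.2 (h0 0)
  have key : ∀ ε : ℝ, 0 < ε → ‖h z‖ ≤ 2 * ε * ‖z‖ := by
    intro ε hε
    obtain ⟨K, hK⟩ := hg ε hε
    set L := |Real.log (K / ‖F 0‖)| + 1 with hL
    have hre : ∀ w, (h w).re ≤ L + ε * ‖w‖ := fun w => by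
      have a := hK w
      rw [hFe w, norm_mul, Complex.norm_exp] at a
      have hKp : 0 < K := by
        by_contra hn
        have : K * Real.exp (ε * ‖w‖) ≤ 0 := mul_nonpos_of_nonpos_of_nonneg (not_lt.1 hn) (Real.exp_pos _).le
        have : 0 < ‖F 0‖ * Real.exp (h w).re := by positivity
        linarith
      have b : Real.exp (h w).re ≤ Real.exp (Real.log (K / ‖F 0‖) + ε * ‖w‖) := by
        rw [Real.exp_add, Real.exp_log (by positivity), div_mul_eq_mul_div, le_div_iff₀ hF0]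
        linarith
      have := Real.exp_le_exp.1 b
      linarith [le_abs_self (Real.log (K / ‖F 0‖))]
    have hb : ∀ R : ℝ, ‖z‖ < R → ‖h z‖ ≤ 2 * (L + ε * R) * ‖z‖ / (R - ‖z‖) := fun R hR => by
      have hR0 : 0 < R := (norm_nonneg _).trans_lt hR
      refine Complex.borelCaratheodory_zero (by positivity)
        (fun w _ => (hhd w).differentiableAt.differentiableWithinAt) ?_ hR0 (by simpa using hR)
        (by simp [hh])
      intro w hw
      have : ‖w‖ < R := by simpa using hw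
      have := hre w
      show (h w).re ≤ L + ε * R
      nlinarith
    have hl : Tendsto (fun R : ℝ => 2 * (L + ε * R) * ‖z‖ / (R - ‖z‖)) atTop (𝓝 (2 * ε * ‖z‖)) := by
      have t1 : Tendsto (fun R : ℝ => (R - ‖z‖)⁻¹) atTop (𝓝 0) :=
        tendsto_inv_atTop_zero.comp (tendsto_atTop_add_const_right _ (-‖z‖) tendsto_id)
      have t2 := (t1.const_mul (2 * (L + ε * ‖z‖) * ‖z‖)).add_const (2 * ε * ‖z‖)
      simp only [mul_zero, zero_add] at t2
      refine t2.congr' ?_
      filter_upwards [eventually_gt_atTop ‖z‖] with R hR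
      have : R - ‖z‖ ≠ 0 := by linarith
      field_simp; ring
    exact ge_of_tendsto hl (by filter_upwards [eventually_gt_atTop ‖z‖] with R hR using hb R hR)
  have hz : ‖h z‖ ≤ 0 := by
    have t : Tendsto (fun ε : ℝ => 2 * ε * ‖z‖) (𝓝[>] 0) (𝓝 (2 * 0 * ‖z‖)) :=
      (((continuous_const.mul continuous_id).mul continuous_const).tendsto 0).mono_left
        nhdsWithin_le_nhds
    simp only [mul_zero, zero_mul] at t
    exact ge_of_tendsto t (by filter_upwards [self_mem_nhdsWithin] with ε hε using key ε hε)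
  have : h z = 0 := norm_le_zero_iff.1 hz
  rw [hFe z, this]; simp

lemma coeff_zero_of_ne (b : ℕ → ℂ) (A : ℝ) (hb : ∀ n, ‖b n‖ ≤ A / (n.factorial : ℝ) ^ 2)
    (h0 : ∀ z : ℂ, ∑' n, b n * z ^ n ≠ 0) (n : ℕ) : b (n + 1) = 0 := by
  have hA : 0 ≤ A := by have := (norm_nonneg _).trans (hb 0); simpa using this
  have hterm : ∀ (ε r : ℝ), 0 < ε → 0 ≤ r → ∀ n, ‖b n‖ * r ^ n ≤
      A * Real.exp (1 / ε) * ((ε * r) ^ n / n.factorial) := fun ε r hε hr n => by
    have h1 : (1 / ε) ^ n / n.factorial ≤ Real.exp (1 / ε) :=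
      Real.pow_div_factorial_le_exp _ (by positivity) n
    have hf : (0 : ℝ) < n.factorial := by positivity
    calc ‖b n‖ * r ^ n ≤ A / (n.factorial : ℝ) ^ 2 * r ^ n := by gcongr; exact hb n
      _ = A * ((1 / ε) ^ n / n.factorial) * ((ε * r) ^ n / n.factorial) := by
        rw [mul_pow, one_div, inv_pow]; field_simp
      _ ≤ _ := by gcongr
  set p := FormalMultilinearSeries.ofScalars ℂ b with hp
  have hrad : p.radius = ⊤ := by
    refine FormalMultilinearSeries.radius_eq_top_of_summable_norm p fun r => ?_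
    refine Summable.of_nonneg_of_le (fun n => by positivity) (fun n => ?_)
      ((Real.summable_pow_div_factorial (1 * r)).mul_left (A * Real.exp (1 / 1)))
    rw [hp, FormalMultilinearSeries.ofScalars_norm]
    exact hterm 1 r one_pos r.2 n
  have hps := p.hasFPowerSeriesOnBall (by rw [hrad]; simp)
  have hsum : ∀ z, p.sum z = ∑' n, b n * z ^ n := fun z => by
    simp [FormalMultilinearSeries.sum, hp, mul_comm]
  have hdiff : Differentiable ℂ p.sum := fun z =>
    (hps.analyticAt_of_mem (by rw [hrad]; simp)).differentiableAt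
  have hc := const_of_growth p.sum hdiff (fun z => by rw [hsum]; exact h0 z) (fun ε hε =>
    ⟨A * Real.exp (1 / ε), fun z => by
      rw [hsum]
      refine tsum_of_norm_bounded (((NormedSpace.expSeries_div_hasSum_exp (ε * ‖z‖)).mul_left
        (A * Real.exp (1 / ε))).trans_eq ?_ |> fun h => h) fun n => ?_
      · rw [Real.exp_eq_exp_ℝ]
      · rw [norm_mul, norm_pow]; exact hterm ε _ hε (norm_nonneg _) n⟩)
  have h1 : HasFPowerSeriesAt p.sum (constFormalMultilinearSeries ℂ ℂ (p.sum 0)) 0 := by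
    have : p.sum = fun _ => p.sum 0 := funext hc
    rw [this]; exact hasFPowerSeriesAt_const
  have h2 := hps.hasFPowerSeriesAt.eq_formalMultilinearSeries h1
  have h3 : ‖p (n + 1)‖ = 0 := by rw [h2]; simp
  rw [hp, FormalMultilinearSeries.ofScalars_norm] at h3
  exact norm_eq_zero.1 h3

end Pool.Agent.H.MP_7c4fde_an
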