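import Pool.Agent.H.MP_7c4fde_an.A

set_option autoImplicit false

namespace Pool.Agent.H.MP_7c4fde_an

open Polynomial Filter Topology

def V : ℕ → ℕ
  | 0 => 1
  | m + 1 => (4 * m + 9) * V m

def a (s r : ℕ) : ℕ := (4 * r + 5) * V (s + r)

lemma V_pos (m : ℕ) : 1 ≤ V m := by
  induction m with
  | zero => simp [V]
  | succ m ih => simp only [V]; nlinarith

lemma V_mono : Monotone V := monotone_nat_of_le_succ fun m => by
  simp only [V]; nlinarith [V_pos m]

lemma V_ge (m : ℕ) : m + 1 ≤ V m := by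
  induction m with
  | zero => simp [V]
  | succ m ih => simp only [V]; nlinarith

lemma a_ge (s r : ℕ) : 5 * V (s + r) ≤ a s r := by
  unfold a; nlinarith [V_pos (s + r)]

lemma Vs_le (s r : ℕ) : V s ≤ V (s + r) := V_mono (by omega)

lemma a_le (s r : ℕ) : a s r + 4 * V (s + r) ≤ V (s + r + 1) := by
  unfold a; simp only [V]; nlinarith [V_pos (s + r)]

lemma a_lt {s r s' r' : ℕ} (h : s + r = s' + r') (h2 : r < r') :
    a s r + 4 * V (s + r) ≤ a s' r' := by
  unfold a; rw [← h]; nlinarith [V_pos (s + r)]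

lemma a_lt' {s r s' r' : ℕ} (h : s + r < s' + r') : a s r + 4 * V (s + r) ≤ a s' r' := by
  have := a_le s r
  have := V_mono (show s + r + 1 ≤ s' + r' from h)
  have := a_ge s' r'
  omega

lemma sep (s r s' r' : ℕ) : (s = s' ∧ r = r') ∨ a s r + 4 * V (s + r) ≤ a s' r' ∨
    a s' r' + 4 * V (s' + r') ≤ a s r := by
  rcases lt_trichotomy (s + r) (s' + r') with h | h | h
  · exact Or.inr (Or.inl (a_lt' h))
  · rcases lt_trichotomy r r' with h2 | h2 | h2
    · exact Or.inr (Or.inl (a_lt h h2))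
    · exact Or.inl ⟨by omega, h2⟩
    · exact Or.inr (Or.inr (a_lt h.symm h2))
  · exact Or.inr (Or.inr (a_lt' h))

lemma uniq {s r i s' r' i' : ℕ} (h : i ≤ V s) (h' : i' ≤ V s') (e : a s r + i = a s' r' + i') :
    s = s' ∧ r = r' ∧ i = i' := by
  have := Vs_le s r
  have := Vs_le s' r'
  have := V_pos s
  have := V_pos s'
  rcases sep s r s' r' with ⟨rfl, rfl⟩ | h1 | h1 <;> omega

def Fan (j : ℕ) : Prop := ∃ p : ℕ × ℕ × ℕ, p.2.2 ≤ V p.1 ∧ j = a p.1 p.2.1 + p.2.2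

lemma fan_mk {s r i : ℕ} (h : i ≤ V s) : Fan (a s r + i) := ⟨(s, r, i), h, rfl⟩

lemma fan_or (j : ℕ) : ¬ Fan j ∨ ∃ s r i, i ≤ V s ∧ j = a s r + i := by
  by_cases h : Fan j
  · obtain ⟨p, h1, h2⟩ := h
    exact Or.inr ⟨_, _, _, h1, h2⟩
  · exact Or.inl h

lemma lay_V (n : ℕ) : ¬ Fan (V n) := by
  rintro ⟨⟨s, r, i⟩, h1, h2⟩
  simp only at h1 h2
  have := Vs_le s r
  have := V_pos s
  rcases le_or_gt n (s + r) with h | h
  · have := V_mono h
    have := a_ge s r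
    omega
  · have := V_mono (show s + r + 1 ≤ n from h)
    have := a_le s r
    omega

lemma lay_end (s r : ℕ) : ¬ Fan (a s r + V s + 1) := by
  rintro ⟨⟨s', r', i⟩, h1, h2⟩
  simp only at h1 h2
  have := Vs_le s r
  have := Vs_le s' r'
  have := V_pos s
  have := V_pos s'
  rcases sep s r s' r' with ⟨rfl, rfl⟩ | h1 | h1 <;> omega

lemma lay_zero : ¬ Fan 0 := by
  rintro ⟨⟨s', r', i⟩, h1, h2⟩
  simp only at h1 h2
  have := a_ge s' r'
  have := V_pos (s' + r')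
  omega

lemma start_gt {l s r i : ℕ} (hl : ¬ Fan l) (h : i ≤ V s) (h2 : l ≤ a s r + i) : l < a s r := by
  by_contra hn
  exact hl ⟨(s, r, l - a s r), by simp only; omega, by simp only; omega⟩

open Classical in
noncomputable def cs {α : Type} (F : ℕ → ℕ → ℕ → α) (G : α) (j : ℕ) : α :=
  if h : Fan j then F h.choose.1 h.choose.2.1 h.choose.2.2 else G

lemma cs_lay {α : Type} (F : ℕ → ℕ → ℕ → α) (G : α) {j : ℕ} (h : ¬ Fan j) : cs F G j = G := by
  simp [cs, h]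

lemma choose_eq {s r i : ℕ} (h : i ≤ V s) (h' : Fan (a s r + i)) : h'.choose = (s, r, i) := by
  obtain ⟨h1, h2⟩ := h'.choose_spec
  obtain ⟨e1, e2, e3⟩ := uniq h h1 h2
  exact Prod.ext e1.symm (Prod.ext e2.symm e3.symm)

lemma cs_fan {α : Type} (F : ℕ → ℕ → ℕ → α) (G : α) {s r i : ℕ} (h : i ≤ V s) :
    cs F G (a s r + i) = F s r i := by
  simp only [cs, dif_pos (fan_mk (r := r) h), choose_eq h]

noncomputable def Mx (j : ℕ) (τ : ℝ) : ℝ := 2 * τ⁻¹ ^ (j + 2)

noncomputable def Cx (j : ℕ) (τ : ℝ) : ℝ := (inv2 (Mx j τ) τ (τ ^ 2 / (3 * j + 1)) j).choose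

noncomputable def Kx (j : ℕ) (τ : ℝ) : ℝ :=
  (3 * j + 1) * (2 * ((3 * j + 1) * (Cx j τ * |Mx j τ|)) + 4 * Cx j τ)

lemma Cx_nonneg (j : ℕ) (τ : ℝ) : 0 ≤ Cx j τ := (inv2 _ _ _ _).choose_spec.1

lemma Kx_nonneg (j : ℕ) (τ : ℝ) : 0 ≤ Kx j τ := by
  have := Cx_nonneg j τ
  unfold Kx; positivity

noncomputable def t : ℕ → ℝ
  | 0 => 1 / 2
  | j + 1 => t j ^ (j + 3) / (((2 * j + 6).factorial : ℝ) ^ 2 * (1 + Kx j (t j)))

lemma t_pos (j : ℕ) : 0 < t j := by
  induction j with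
  | zero => simp [t]
  | succ j ih =>
    have := Kx_nonneg j (t j)
    simp only [t]; positivity

lemma fact_ge (n : ℕ) : (1 : ℝ) ≤ (n.factorial : ℝ) ^ 2 :=
  one_le_pow₀ (by exact_mod_cast Nat.factorial_pos n)

lemma t_succ_le (j : ℕ) : t (j + 1) ≤ t j ^ (j + 3) := by
  have := Kx_nonneg j (t j)
  have := fact_ge (2 * j + 6)
  have := t_pos j
  simp only [t]
  exact div_le_self (by positivity) (by nlinarith)

lemma t_le_half (j : ℕ) : t j ≤ 1 / 2 := by
  induction j with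
  | zero => simp [t]
  | succ j ih =>
    refine (t_succ_le j).trans ((pow_le_of_le_one (t_pos j).le (by linarith) (by omega)).trans ih)

lemma t_le_one (j : ℕ) : t j ≤ 1 := by linarith [t_le_half j]

lemma t_succ_pow (j n : ℕ) (h : n ≤ j + 3) : t (j + 1) ≤ t j ^ n :=
  (t_succ_le j).trans (pow_le_pow_of_le_one (t_pos j).le (t_le_one j) h)

lemma t_anti : Antitone t := antitone_nat_of_succ_le fun j => by
  simpa using t_succ_pow j 1 (by omega)

lemma t_le_geom (j : ℕ) : t j ≤ (1 / 2) ^ (j + 1) := by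
  cases j with
  | zero => simp [t]
  | succ j =>
    exact (t_succ_pow j (j + 2) (by omega)).trans (pow_le_pow_left₀ (t_pos j).le (t_le_half j) _)

lemma t_le_fact (j : ℕ) : t (j + 1) ≤ 1 / ((2 * j + 6).factorial : ℝ) ^ 2 := by
  have := Kx_nonneg j (t j)
  have := fact_ge (2 * j + 6)
  have h := t_pos j
  simp only [t]
  refine div_le_div₀ zero_le_one (pow_le_one₀ h.le (t_le_one j)) (by positivity) (by nlinarith)

lemma t_K (j : ℕ) : Kx j (t j) * t (j + 1) ≤ t j ^ 2 := by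
  have := Kx_nonneg j (t j)
  have := fact_ge (2 * j + 6)
  have h := t_pos j
  have h2 : t j ^ (j + 3) ≤ t j ^ 2 := pow_le_pow_of_le_one h.le (t_le_one j) (by omega)
  simp only [t]
  rw [← mul_div_assoc, div_le_iff₀ (by positivity)]
  have : Kx j (t j) ≤ ((2 * j + 6).factorial : ℝ) ^ 2 * (1 + Kx j (t j)) := by nlinarith
  calc _ ≤ (((2 * j + 6).factorial : ℝ) ^ 2 * (1 + Kx j (t j))) * t j ^ 2 :=
        mul_le_mul this h2 (by positivity) (by positivity)
    _ = _ := mul_comm _ _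

lemma t_max (x c n : ℕ) (hn : n ≤ x + 2) : t (max x c + 1) ≤ t x ^ n * t c := by
  refine (t_succ_pow _ (n + 1) (by omega)).trans ?_
  rw [pow_succ]
  exact mul_le_mul (pow_le_pow_left₀ (t_pos _).le (t_anti (le_max_left _ _)) _)
    (t_anti (le_max_right _ _)) (t_pos _).le (pow_nonneg (t_pos _).le _)

noncomputable def γ (s i : ℕ) : ℝ := t (V s) ^ (i + 1)

lemma γ_pos (s i : ℕ) : 0 < γ s i := pow_pos (t_pos _) _

lemma γ_le (s i : ℕ) : γ s i ≤ 1 := pow_le_one₀ (t_pos _).le (t_le_one _)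

lemma γ_ge {s i x n : ℕ} (h1 : V s ≤ x) (h2 : i + 1 ≤ n) : t x ^ n ≤ γ s i :=
  (pow_le_pow_of_le_one (t_pos _).le (t_le_one _) h2).trans
    (pow_le_pow_left₀ (t_pos _).le (t_anti h1) _)

abbrev L1 : Type := lp (fun _ : ℕ => ℂ) 1

noncomputable def e (j : ℕ) : L1 := lp.single 1 j 1

lemma norm_e (j : ℕ) : ‖e j‖ = 1 := by
  rw [e, lp.norm_single one_pos]; simp

lemma hasSum_e (x : L1) : HasSum (fun j => x j • e j) x := by
  have := lp.hasSum_single (p := 1) (by simp) x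
  convert this using 2 with j
  rw [e, ← lp.single_smul]; simp

lemma hasSum_norm (x : L1) : HasSum (fun j => ‖x j‖) ‖x‖ := by
  simpa using lp.hasSum_norm (p := 1) (by simp) x

open Classical in
noncomputable def u (j : ℕ) : L1 :=
  if h : Fan j then
    (t (a h.choose.1 h.choose.2.1) : ℂ) • ((γ h.choose.1 h.choose.2.2 : ℂ) • e j + u h.choose.2.2)
  else (t j : ℂ) • e j
termination_by j
decreasing_by
  have := h.choose_spec.2
  have := a_ge h.choose.1 h.choose.2.1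
  have := V_pos (h.choose.1 + h.choose.2.1)
  omega

lemma u_lay {j : ℕ} (h : ¬ Fan j) : u j = (t j : ℂ) • e j := by
  rw [u, dif_neg h]

lemma u_fan {s r i : ℕ} (h : i ≤ V s) :
    u (a s r + i) = (t (a s r) : ℂ) • ((γ s i : ℂ) • e (a s r + i) + u i) := by
  rw [u, dif_pos (fan_mk (r := r) h), choose_eq h]

lemma norm_t (j : ℕ) : ‖(t j : ℂ)‖ = t j := by simp [abs_of_pos (t_pos j)]

lemma norm_γ (s i : ℕ) : ‖(γ s i : ℂ)‖ = γ s i := by simp [abs_of_pos (γ_pos s i)]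

lemma u_fan_le {s r i : ℕ} (h : i ≤ V s) (h1 : ‖u i‖ ≤ 1) : ‖u (a s r + i)‖ ≤ 2 * t (a s r) := by
  rw [u_fan h, norm_smul, norm_t, mul_comm]
  refine mul_le_mul_of_nonneg_right ((norm_add_le _ _).trans ?_) (t_pos _).le
  rw [norm_smul, norm_e, norm_γ]
  linarith [γ_le s i]

lemma u_le_one (j : ℕ) : ‖u j‖ ≤ 1 := by
  induction j using Nat.strong_induction_on with
  | _ j ih =>
    rcases fan_or j with h | ⟨s, r, i, h, rfl⟩
    · rw [u_lay h, norm_smul, norm_e, norm_t]; linarith [t_le_one j]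
    · have := a_ge s r
      have := V_pos (s + r)
      linarith [u_fan_le (r := r) h (ih i (by omega)), t_le_half (a s r)]

lemma u_le {c k : ℕ} (h1 : c ≤ k) (h2 : ∀ s r i, i ≤ V s → k = a s r + i → c ≤ a s r) :
    ‖u k‖ ≤ 2 * t c := by
  rcases fan_or k with h | ⟨s, r, i, h, rfl⟩
  · rw [u_lay h, norm_smul, norm_e, norm_t]; linarith [t_anti h1, t_pos c]
  · linarith [u_fan_le (r := r) h (u_le_one i), t_anti (h2 s r i h rfl)]

lemma u_le' {l c k : ℕ} (hl : ¬ Fan l) (h1 : l < k) (h2 : c ≤ l ∨ 2 * (c + 1) ≤ k) :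
    ‖u k‖ ≤ 2 * t (max l c + 1) := by
  refine u_le (by omega) fun s r i hi hk => ?_
  have := start_gt hl hi (show l ≤ a s r + i by omega)
  have := a_ge s r
  have := Vs_le s r
  omega

lemma u_le'' {s r c k : ℕ} (h1 : a s r + V s < k) (h2 : c ≤ a s r + 1 ∨ 2 * (c + 1) ≤ k) :
    ‖u k‖ ≤ 2 * t (max (a s r + 1) c + 1) := by
  have := V_pos s
  refine u_le (by omega) fun s' r' i hi hk => ?_
  have := start_gt (lay_end s r) hi (show a s r + V s + 1 ≤ a s' r' + i by omega)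
  have := a_ge s' r'
  have := Vs_le s' r'
  omega

end Pool.Agent.H.MP_7c4fde_an
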