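import Pool.Agent.H.MP_7c4fde_an.B

set_option autoImplicit false

namespace Pool.Agent.H.MP_7c4fde_an

open Polynomial Filter Topology

section ops

variable {E : Type} [NormedAddCommGroup E] [NormedSpace ℂ E]

lemma summ [CompleteSpace E] (g : ℕ → E) (C : ℝ) (h : ∀ j, ‖g j‖ ≤ C) (x : L1) :
    Summable fun j => x j • g j :=
  Summable.of_norm_bounded ((hasSum_norm x).summable.mul_left C) fun j => by
    rw [norm_smul, mul_comm]; exact mul_le_mul_of_nonneg_right (h j) (norm_nonneg _)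

noncomputable def mk [CompleteSpace E] (g : ℕ → E) (C : ℝ) (h : ∀ j, ‖g j‖ ≤ C) : L1 →L[ℂ] E :=
  LinearMap.mkContinuous
    { toFun := fun x => ∑' j, x j • g j
      map_add' := fun x y => by
        rw [← (summ g C h x).tsum_add (summ g C h y)]
        simp [add_smul]
      map_smul' := fun c x => by
        simp only [lp.coeFn_smul, Pi.smul_apply, RingHom.id_apply, smul_assoc]
        exact (summ g C h x).tsum_const_smul c } C fun x =>
    tsum_of_norm_bounded ((hasSum_norm x).mul_left C) fun j => by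
      rw [norm_smul, mul_comm]; exact mul_le_mul_of_nonneg_right (h j) (norm_nonneg _)

lemma mk_apply [CompleteSpace E] (g : ℕ → E) (C : ℝ) (h : ∀ j, ‖g j‖ ≤ C) (x : L1) :
    mk g C h x = ∑' j, x j • g j := rfl

lemma mk_e [CompleteSpace E] (g : ℕ → E) (C : ℝ) (h : ∀ j, ‖g j‖ ≤ C) (j : ℕ) :
    mk g C h (e j) = g j := by
  rw [mk_apply, tsum_eq_single j]
  · simp [e]
  · intro k hk
    simp [e, hk]

lemma op_le (S : L1 →L[ℂ] E) (x : L1) (c : ℕ → ℝ) (B : ℝ) (hc : HasSum c B)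
    (h : ∀ j, ‖x j‖ * ‖S (e j)‖ ≤ c j) : ‖S x‖ ≤ B := by
  have h1 := S.hasSum (hasSum_e x)
  rw [← h1.tsum_eq]
  exact tsum_of_norm_bounded hc fun j => by rw [map_smul, norm_smul]; exact h j

lemma op_le' (S : L1 →L[ℂ] E) (C : ℝ) (h : ∀ j, ‖S (e j)‖ ≤ C) (x : L1) : ‖S x‖ ≤ C * ‖x‖ :=
  op_le S x _ _ ((hasSum_norm x).mul_left C) fun j => by
    rw [mul_comm]; exact mul_le_mul_of_nonneg_right (h j) (norm_nonneg _)

end ops

noncomputable def w (j k : ℕ) : L1 :=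
  cs (fun s r i => (γ s i : ℂ)⁻¹ • ((t (a s r) : ℂ)⁻¹ • u (j + k) - u (i + k)))
    ((t j : ℂ)⁻¹ • u (j + k)) j

lemma w_lay {j : ℕ} (h : ¬ Fan j) (k : ℕ) : w j k = (t j : ℂ)⁻¹ • u (j + k) := cs_lay _ _ h

lemma w_fan {s r i : ℕ} (h : i ≤ V s) (k : ℕ) : w (a s r + i) k =
    (γ s i : ℂ)⁻¹ • ((t (a s r) : ℂ)⁻¹ • u (a s r + i + k) - u (i + k)) := cs_fan _ _ h

lemma t_ne (j : ℕ) : (t j : ℂ) ≠ 0 := by exact_mod_cast (t_pos j).ne'

lemma γ_ne (s i : ℕ) : (γ s i : ℂ) ≠ 0 := by exact_mod_cast (γ_pos s i).ne'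

lemma w_zero (j : ℕ) : w j 0 = e j := by
  rcases fan_or j with h | ⟨s, r, i, h, rfl⟩
  · rw [w_lay h, add_zero, u_lay h, inv_smul_smul₀ (t_ne j)]
  · rw [w_fan h, add_zero, add_zero, u_fan h, inv_smul_smul₀ (t_ne _), add_sub_cancel_right,
      inv_smul_smul₀ (γ_ne _ _)]

lemma inv_smul_le {x : ℝ} (hx : 0 < x) (v : L1) {B : ℝ} (h : ‖v‖ ≤ x * B) :
    ‖(x : ℂ)⁻¹ • v‖ ≤ B := by
  rw [norm_smul, norm_inv, Complex.norm_real, Real.norm_eq_abs, abs_of_pos hx,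
    inv_mul_le_iff₀ hx]
  exact h

lemma w_lay_le {j k c : ℕ} (h : ¬ Fan j) (hk : 1 ≤ k) (hc : c ≤ j ∨ 2 * (c + 1) ≤ k) :
    ‖w j k‖ ≤ 2 * t c := by
  rw [w_lay h]
  refine inv_smul_le (t_pos j) _ ((u_le' (c := c) h (by omega) (by omega)).trans ?_)
  have := t_max j c 1 (by omega)
  nlinarith

lemma pieceA {s r i k c : ℕ} (h : i ≤ V s) (hk : V s < i + k)
    (hc : c ≤ a s r + 1 ∨ 2 * (c + 1) ≤ k) :
    ‖(γ s i : ℂ)⁻¹ • (t (a s r) : ℂ)⁻¹ • u (a s r + i + k)‖ ≤ 2 * t c := by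
  refine inv_smul_le (γ_pos _ _) _ (inv_smul_le (t_pos _) _ ?_)
  refine (u_le'' (s := s) (r := r) (c := c) (by omega) (by omega)).trans ?_
  have h1 := t_max (a s r + 1) c 1 (by omega)
  have := a_ge s r
  have := Vs_le s r
  have h2 := t_succ_pow (a s r) (a s r + 1 + 1) (by omega)
  have h3 : t (a s r) ^ (a s r + 1) ≤ γ s i := γ_ge (by omega) (by omega)
  have h4 := t_pos (a s r)
  have h5 := t_pos c
  rw [pow_succ] at h2
  rw [pow_one] at h1
  calc _ ≤ 2 * (t (a s r + 1) * t c) := by linarith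
    _ ≤ 2 * ((γ s i * t (a s r)) * t c) := by
      gcongr
      exact h2.trans (mul_le_mul_of_nonneg_right h3 h4.le)
    _ = _ := by ring

lemma pieceB {s i k c : ℕ} (h : i ≤ V s) (hk : V s < i + k)
    (hc : c ≤ V s ∨ 2 * (c + 1) ≤ k) : ‖(γ s i : ℂ)⁻¹ • u (i + k)‖ ≤ 2 * t c := by
  refine inv_smul_le (γ_pos _ _) _ ?_
  refine (u_le' (c := c) (lay_V s) hk (by omega)).trans ?_
  have h1 := t_max (V s) c (i + 1) (by omega)
  unfold γ
  nlinarith

lemma w_fan_le {s r i k c : ℕ} (h : i ≤ V s) (hk : 1 ≤ k) (hc : c ≤ V s ∨ 2 * (c + 1) ≤ k) :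
    ‖w (a s r + i) k‖ ≤ 4 * t c := by
  rw [w_fan h]
  rcases le_or_gt (i + k) (V s) with h1 | h1
  · rw [add_assoc, u_fan h1, inv_smul_smul₀ (t_ne _), add_sub_cancel_right]
    refine inv_smul_le (γ_pos _ _) _ ?_
    rw [norm_smul, norm_e, norm_γ, mul_one]
    have h2 : γ s (i + k) = γ s i * t (V s) ^ k := by unfold γ; ring
    rw [h2]
    refine mul_le_mul_of_nonneg_left ?_ (γ_pos _ _).le
    have h3 : t (V s) ^ k ≤ t (V s) := pow_le_of_le_one (t_pos _).le (t_le_one _) (by omega)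
    have h4 : t (V s) ≤ t c := t_anti (by omega)
    linarith [t_pos c]
  · rw [smul_sub]
    have := a_ge s r
    have := Vs_le s r
    have h2 := pieceA (r := r) (c := c) h h1 (by omega)
    have h3 := pieceB (c := c) h h1 hc
    linarith [norm_sub_le ((γ s i : ℂ)⁻¹ • (t (a s r) : ℂ)⁻¹ • u (a s r + i + k))
      ((γ s i : ℂ)⁻¹ • u (i + k))]

lemma w_le {j k c : ℕ} (hk : 1 ≤ k) (hc : c = 0 ∨ 2 * (c + 1) ≤ k) : ‖w j k‖ ≤ 4 * t c := by
  rcases fan_or j with h | ⟨s, r, i, h, rfl⟩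
  · linarith [w_lay_le (c := c) h hk (by omega), t_pos c]
  · exact w_fan_le h hk (by omega)

noncomputable def T : L1 →L[ℂ] L1 :=
  mk (fun j => w j 1) (4 * t 0) fun _ => w_le le_rfl (Or.inl rfl)

lemma T_e (j : ℕ) : T (e j) = w j 1 := mk_e _ _ _ j

lemma T_u (j : ℕ) : T (u j) = u (j + 1) := by
  induction j using Nat.strong_induction_on with
  | _ j ih =>
    rcases fan_or j with h | ⟨s, r, i, h, rfl⟩
    · rw [u_lay h, map_smul, T_e, w_lay h, smul_inv_smul₀ (t_ne j)]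
    · have := a_ge s r
      have := V_pos (s + r)
      rw [u_fan h, map_smul, map_add, map_smul, T_e, w_fan h, smul_inv_smul₀ (γ_ne _ _),
        ih i (by omega), sub_add_cancel, smul_inv_smul₀ (t_ne _)]

lemma Tpow_u (k j : ℕ) : (T ^ k) (u j) = u (j + k) := by
  induction k with
  | zero => simp
  | succ k ih => rw [pow_succ', mul_apply_eq_comp, ih, T_u, add_assoc]

lemma Tpow_e (k j : ℕ) : (T ^ k) (e j) = w j k := by
  rw [← w_zero]
  rcases fan_or j with h | ⟨s, r, i, h, rfl⟩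
  · rw [w_lay h, w_lay h, map_smul, Tpow_u, add_zero]
  · rw [w_fan h, w_fan h, map_smul, map_sub, map_smul, Tpow_u, Tpow_u, add_zero, add_zero]

lemma Tpow_le {k c : ℕ} (hk : 1 ≤ k) (hc : c = 0 ∨ 2 * (c + 1) ≤ k) : ‖T ^ k‖ ≤ 4 * t c :=
  ContinuousLinearMap.opNorm_le_bound _ (by linarith [t_pos c])
    (op_le' _ _ fun j => by rw [Tpow_e]; exact w_le hk hc)

lemma Tpow_decay (k : ℕ) : ‖T ^ k‖ ≤ 1152 / ((k + 1).factorial : ℝ) ^ 2 := by
  rcases lt_or_ge k 4 with h | h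
  · have h1 : ‖T ^ k‖ ≤ 2 := by
      rcases Nat.eq_zero_or_pos k with rfl | h0
      · rw [pow_zero]; linarith [ContinuousLinearMap.norm_id_le (𝕜 := ℂ) (E := L1),
          show ‖(1 : L1 →L[ℂ] L1)‖ = ‖ContinuousLinearMap.id ℂ L1‖ from rfl]
      · linarith [Tpow_le (c := 0) h0 (Or.inl rfl), t_le_half 0]
    refine h1.trans ?_
    have h2 : ((k + 1).factorial : ℝ) ≤ 24 := by
      exact_mod_cast (Nat.factorial_le (show k + 1 ≤ 4 by omega))
    have h3 : (0 : ℝ) < (k + 1).factorial := by positivity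
    rw [le_div_iff₀ (by positivity)]
    nlinarith
  · have h1 := Tpow_le (k := k) (c := k / 2 - 2 + 1) (by omega) (by omega)
    have h2 := t_le_fact (k / 2 - 2)
    have h3 : ((k + 1).factorial : ℝ) ≤ (2 * (k / 2 - 2) + 6).factorial := by
      exact_mod_cast (Nat.factorial_le (by omega))
    have h4 : (0 : ℝ) < (k + 1).factorial := by positivity
    have h5 : 1 / ((2 * (k / 2 - 2) + 6).factorial : ℝ) ^ 2 ≤ 1 / ((k + 1).factorial : ℝ) ^ 2 := by
      gcongr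
    have h6 : 0 < 1 / ((k + 1).factorial : ℝ) ^ 2 := by positivity
    rw [div_eq_mul_one_div]
    linarith

lemma aeval_apply (p : ℂ[X]) (n : ℕ) (hn : p.natDegree < n) (v : L1) :
    aeval T p v = ∑ k ∈ Finset.range n, p.coeff k • (T ^ k) v := by
  rw [aeval_eq_sum_range' hn]
  simp

end Pool.Agent.H.MP_7c4fde_an
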