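import Pool.Agent.H.MP_7c4fde_an.C

set_option autoImplicit false

namespace Pool.Agent.H.MP_7c4fde_an

open Polynomial Filter Topology

noncomputable def q (n r j d : ℕ) : ℂ :=
  cs (fun s r' i => (if j < a n r ∧ d = j then (γ s i : ℂ)⁻¹ * (t (a s r') : ℂ)⁻¹ else 0) -
      (if s ≤ n + r ∧ d = i then (γ s i : ℂ)⁻¹ else 0))
    (if j < a n r ∧ d = j then (t j : ℂ)⁻¹ else 0) j

lemma q_lay (n r d : ℕ) {j : ℕ} (h : ¬ Fan j) :
    q n r j d = if j < a n r ∧ d = j then (t j : ℂ)⁻¹ else 0 := cs_lay _ _ h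

lemma q_fan (n r d : ℕ) {s r' i : ℕ} (h : i ≤ V s) : q n r (a s r' + i) d =
    (if a s r' + i < a n r ∧ d = a s r' + i then (γ s i : ℂ)⁻¹ * (t (a s r') : ℂ)⁻¹ else 0) -
      (if s ≤ n + r ∧ d = i then (γ s i : ℂ)⁻¹ else 0) := cs_fan _ _ h

lemma q_le (n r j d : ℕ) : ‖q n r j d‖ ≤ Mx (a n r) (t (a n r)) := by
  have h0 := t_pos (a n r)
  have hp : 0 < (t (a n r))⁻¹ ^ (a n r + 2) := by positivity
  have key : ∀ x : ℝ, t (a n r) ^ (a n r + 2) ≤ x → x⁻¹ ≤ (t (a n r))⁻¹ ^ (a n r + 2) :=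
    fun x hx => by rw [inv_pow]; exact inv_anti₀ (by positivity) hx
  unfold Mx
  rcases fan_or j with h | ⟨s, r', i, h, rfl⟩
  · rw [q_lay _ _ _ h]
    split_ifs with h1
    · rw [norm_inv, norm_t]
      have := key (t j) ((pow_le_of_le_one h0.le (t_le_one _) (by omega)).trans (t_anti h1.1.le))
      linarith
    · simp only [norm_zero]; linarith
  · rw [q_fan _ _ _ h, two_mul]
    have := a_ge s r'
    have := Vs_le s r'
    refine (norm_sub_le _ _).trans (add_le_add ?_ ?_)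
    · split_ifs with h1
      · rw [← mul_inv, norm_inv, norm_mul, norm_t, norm_γ]
        refine key _ ?_
        rw [pow_succ]
        exact mul_le_mul (γ_ge (by omega) (by omega)) (t_anti (by omega)) h0.le (γ_pos _ _).le
      · simp only [norm_zero]; linarith
    · split_ifs with h1
      · rw [norm_inv, norm_γ]
        have := V_mono h1.1
        have := a_ge n r
        exact key _ (γ_ge (by omega) (by omega))
      · simp only [norm_zero]; linarith

noncomputable def φ (n r d : ℕ) : L1 →L[ℂ] ℂ := mk (fun j => q n r j d) _ fun j => q_le n r j d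

noncomputable def S (n r N : ℕ) : L1 →L[ℂ] L1 :=
  ∑ d ∈ Finset.range N, (φ n r d).smulRight (u d)

lemma S_apply (n r N : ℕ) (x : L1) : S n r N x = ∑ d ∈ Finset.range N, φ n r d x • u d := by
  simp [S]

lemma sum_ite (P : Prop) [Decidable P] (N j : ℕ) (c : ℂ) :
    ∑ d ∈ Finset.range N, (if P ∧ d = j then c else 0) • u d =
      if P ∧ j < N then c • u j else 0 := by
  by_cases hP : P
  · simp [hP, ite_smul]
  · simp [hP]

lemma S_lay (n r N : ℕ) {j : ℕ} (h : ¬ Fan j) :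
    S n r N (e j) = if j < a n r ∧ j < N then (t j : ℂ)⁻¹ • u j else 0 := by
  simp only [S_apply, φ, mk_e, q_lay _ _ _ h, sum_ite]

lemma S_fan (n r N : ℕ) {s r' i : ℕ} (h : i ≤ V s) : S n r N (e (a s r' + i)) =
    (if a s r' + i < a n r ∧ a s r' + i < N then
      ((γ s i : ℂ)⁻¹ * (t (a s r') : ℂ)⁻¹) • u (a s r' + i) else 0) -
      (if s ≤ n + r ∧ i < N then (γ s i : ℂ)⁻¹ • u i else 0) := by
  simp only [S_apply, φ, mk_e, q_fan _ _ _ h, sub_smul, Finset.sum_sub_distrib, sum_ite]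

lemma e_lay {j : ℕ} (h : ¬ Fan j) : e j = (t j : ℂ)⁻¹ • u j := by
  rw [← w_zero, w_lay h, add_zero]

lemma e_fan {s r i : ℕ} (h : i ≤ V s) : e (a s r + i) =
    ((γ s i : ℂ)⁻¹ * (t (a s r) : ℂ)⁻¹) • u (a s r + i) - (γ s i : ℂ)⁻¹ • u i := by
  rw [← w_zero, w_fan h, add_zero, add_zero, smul_sub, smul_smul]

lemma old_of_lt {n r s r' i : ℕ} (h : a s r' + i < a n r) : s ≤ n + r := by
  by_contra hn
  have := V_mono (show n + r + 1 ≤ s by omega)
  have := a_le n r
  have := a_ge s r'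
  have := Vs_le s r'
  omega

lemma tail_e (n r j k : ℕ) (hk : 3 * V (n + r) ≤ k) :
    ‖(T ^ k) (e j - S n r (a n r) (e j))‖ ≤ 4 * t (a n r + 1) := by
  have h0 := t_pos (a n r + 1)
  have := V_pos (n + r)
  have := a_ge n r
  rcases fan_or j with h | ⟨s, r', i, h, rfl⟩
  · rw [S_lay _ _ _ h]
    split_ifs with h1
    · rw [← e_lay h]; simp only [sub_self, map_zero, norm_zero]; linarith
    · have : j ≠ a n r := by
        rintro rfl
        exact h (fan_mk (r := r) (Nat.zero_le (V n)))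
      rw [sub_zero, Tpow_e]
      linarith [w_lay_le (k := k) (c := a n r + 1) h (by omega) (by omega)]
  · rw [S_fan _ _ _ h]
    by_cases h1 : a s r' + i < a n r
    · rw [if_pos ⟨h1, h1⟩, if_pos ⟨old_of_lt h1, by omega⟩, ← e_fan h]
      simp only [sub_self, map_zero, norm_zero]; linarith
    · rw [if_neg (by tauto)]
      by_cases h2 : s ≤ n + r
      · have := V_mono h2
        rw [if_pos ⟨h2, by omega⟩, zero_sub, sub_neg_eq_add, e_fan h, sub_add_cancel, map_smul,
          Tpow_u, mul_smul]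
        have h3 : a n r ≤ a s r' := by
          have := Vs_le s r'
          have := V_pos s
          rcases sep s r' n r with ⟨rfl, rfl⟩ | h4 | h4 <;> omega
        linarith [pieceA (r := r') (k := k) (c := a n r + 1) h (by omega) (by omega)]
      · rw [if_neg (by tauto), sub_zero, sub_zero, Tpow_e]
        have := V_mono (show n + r + 1 ≤ s by omega)
        have := a_le n r
        exact w_fan_le h (by omega) (by omega)

lemma tail (n r k : ℕ) (hk : 3 * V (n + r) ≤ k) (x : L1) :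
    ‖(T ^ k) (x - S n r (a n r) x)‖ ≤ 4 * t (a n r + 1) * ‖x‖ :=
  op_le' (T ^ k * (1 - S n r (a n r))) _ (fun j => tail_e n r j k hk) x

noncomputable def yy (n r : ℕ) (x : L1) : ℂ[X] :=
  ∑ d ∈ Finset.range (a n r), monomial d (φ n r d x)

lemma yy_coeff (n r : ℕ) (x : L1) (k : ℕ) :
    (yy n r x).coeff k = if k < a n r then φ n r k x else 0 := by
  simp [yy, coeff_monomial]

lemma yy_deg (n r : ℕ) (x : L1) : (yy n r x).natDegree ≤ a n r :=
  natDegree_le_iff_coeff_eq_zero.2 fun k hk => by rw [yy_coeff, if_neg (by omega)]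

lemma yy_ev (n r : ℕ) (x : L1) : aeval T (yy n r x) (u 0) = S n r (a n r) x := by
  rw [aeval_apply _ (a n r + 1) (Nat.lt_succ_of_le (yy_deg n r x)), Finset.sum_range_succ,
    yy_coeff, if_neg (lt_irrefl _), zero_smul, add_zero, S_apply]
  refine Finset.sum_congr rfl fun k hk => ?_
  rw [yy_coeff, if_pos (Finset.mem_range.1 hk), Tpow_u, zero_add]

lemma sum_le (N : ℕ) (f : ℕ → L1) (B : ℝ) (h : ∀ k < N, ‖f k‖ ≤ B) :
    ‖∑ k ∈ Finset.range N, f k‖ ≤ N * B := by
  refine (norm_sum_le _ _).trans ?_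
  simpa using Finset.sum_le_card_nsmul (Finset.range N) (fun k => ‖f k‖) B
    fun k hk => h k (Finset.mem_range.1 hk)

lemma case1 (n r : ℕ) (x : L1) (hx : ‖x‖ ≤ 1)
    (h : ∃ d ≤ a n r - 3 * V (n + r), t (a n r) ≤ ‖φ n r d x‖) :
    ∃ p : ℂ[X], ‖aeval T p x - u 0‖ ≤ 3 * t (V n) := by
  have hW := V_pos (n + r)
  have hA := a_ge n r
  have hV := Vs_le n r
  have hK := t_K (a n r)
  have hC := Cx_nonneg (a n r) (t (a n r))
  have htl := tail n r
  have hyd := yy_deg n r x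
  have hye := yy_ev n r x
  have hu : ∀ k, a n r + V n < k → ‖u k‖ ≤ 2 * t (a n r + 1) := fun k hk => by
    have := u_le'' (s := n) (r := r) (c := 0) hk (by omega)
    linarith [t_anti (show a n r + 1 ≤ max (a n r + 1) 0 + 1 by omega)]
  have huA := u_fan (s := n) (r := r) (i := 0) (Nat.zero_le _)
  have hτ := t_pos (a n r)
  have ht' := t_pos (a n r + 1)
  have hM : 0 ≤ Mx (a n r) (t (a n r)) := by unfold Mx; positivity
  have hy : ∀ k, ‖(yy n r x).coeff k‖ ≤ Mx (a n r) (t (a n r)) := fun k => by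
    rw [yy_coeff]
    split_ifs
    · refine (op_le' _ (Mx (a n r) (t (a n r))) (fun j => ?_) x).trans (by nlinarith)
      rw [φ, mk_e]; exact q_le _ _ _ _
    · simpa using hM
  obtain ⟨p, hp1, hp2, hp3⟩ := (inv2 (Mx (a n r) (t (a n r))) (t (a n r))
    (t (a n r) ^ 2 / (3 * (a n r) + 1)) (a n r)).choose_spec.2 hτ (by positivity)
    (a n r - 3 * V (n + r)) (by omega) (yy n r x) hy (by
      obtain ⟨d, hd, h⟩ := h
      exact ⟨d, hd, by rw [yy_coeff, if_pos (by omega)]; exact h⟩)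
  change ∀ k, ‖p.coeff k‖ ≤ Cx (a n r) (t (a n r)) at hp2
  unfold Kx at hK
  rw [abs_of_nonneg hM] at hK
  have hτV : t (a n r) ≤ t (V n) := t_anti (by omega)
  generalize Cx (a n r) (t (a n r)) = C at *
  generalize Mx (a n r) (t (a n r)) = M at *
  generalize yy n r x = y at *
  generalize S n r (a n r) = Q at *
  generalize V (n + r) = W at *
  rw [add_zero] at huA
  generalize a n r = A at *
  set R := p * y - X ^ (A - 3 * W) with hR
  have hRd : R.natDegree < 3 * A + 1 := by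
    refine Nat.lt_succ_of_le ((natDegree_sub_le _ _).trans (max_le (natDegree_mul_le.trans ?_) ?_))
    · omega
    · exact (natDegree_X_pow_le _).trans (by omega)
  have b1 : ‖(T ^ (3 * W)) (aeval T p (x - Q x))‖ ≤ ((3 * A + 1 : ℕ) : ℝ) * (C * (4 * t (A + 1))) := by
    rw [aeval_apply p (3 * A + 1) (by omega), map_sum]
    refine sum_le _ _ _ fun k _ => ?_
    rw [map_smul, norm_smul, ← mul_apply_eq_comp, ← pow_add]
    refine mul_le_mul (hp2 k) ((htl _ (by omega) x).trans (by nlinarith)) (norm_nonneg _) hC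
  have b2 : ‖(T ^ (3 * W)) (aeval T R (u 0))‖ ≤ ((3 * A + 1 : ℕ) : ℝ) *
      (t A ^ 2 / (3 * A + 1) + (3 * A + 1) * (C * M) * (2 * t (A + 1))) := by
    rw [aeval_apply R (3 * A + 1) hRd, map_sum]
    refine sum_le _ _ _ fun k hk => ?_
    rw [map_smul, norm_smul, Tpow_u, Tpow_u]
    have p1 : 0 ≤ t A ^ 2 / (3 * A + 1) := by positivity
    have p2 : 0 ≤ (3 * A + 1) * (C * M) * (2 * t (A + 1)) := by positivity
    rcases le_or_gt k A with h1 | h1
    · have := mul_le_mul (hp3 k h1) (u_le_one (0 + k + 3 * W)) (norm_nonneg _) p1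
      linarith
    · have c1 : ‖R.coeff k‖ ≤ (3 * A + 1) * (C * M) := by
        rw [hR, coeff_sub, coeff_X_pow, if_neg (by omega), sub_zero]
        refine (coeff_mul_le p y C M hC hp2 hy k).trans ?_
        have : (k : ℝ) ≤ 3 * A := by exact_mod_cast (by omega : k ≤ 3 * A)
        gcongr
      have := mul_le_mul c1 (hu (0 + k + 3 * W) (by omega)) (norm_nonneg _) (by positivity)
      linarith
  refine ⟨Polynomial.C (t A : ℂ)⁻¹ * X ^ (3 * W) * p, ?_⟩
  have e1 : aeval T (Polynomial.C (t A : ℂ)⁻¹ * X ^ (3 * W) * p) x - u 0 =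
      (t A : ℂ)⁻¹ • ((T ^ (3 * W)) (aeval T p (x - Q x)) + (T ^ (3 * W)) (aeval T R (u 0))) +
        (γ n 0 : ℂ) • e A := by
    have e2 : aeval T R (u 0) = aeval T p (Q x) - u (A - 3 * W) := by
      rw [hR, map_sub, map_mul, sub_apply, mul_apply_eq_comp, hye, map_pow,
        aeval_X, Tpow_u, zero_add]
    have e3 : aeval T (Polynomial.C (t A : ℂ)⁻¹ * X ^ (3 * W) * p) x =
        (t A : ℂ)⁻¹ • (T ^ (3 * W)) (aeval T p x) := by
      rw [map_mul, map_mul, aeval_C, map_pow, aeval_X, mul_apply_eq_comp, mul_apply_eq_comp]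
      simp [Algebra.algebraMap_eq_smul_one]
    rw [e2, e3, map_sub, map_sub, map_sub, Tpow_u, show A - 3 * W + 3 * W = A by omega, huA,
      sub_add_sub_cancel, smul_sub, inv_smul_smul₀ (t_ne A)]
    abel
  rw [e1]
  refine (norm_add_le _ _).trans ?_
  have b3 : ‖(γ n 0 : ℂ) • e A‖ = t (V n) := by
    rw [norm_smul, norm_e, norm_γ]; simp [γ]
  have b4 : ‖(t A : ℂ)⁻¹ • ((T ^ (3 * W)) (aeval T p (x - Q x)) +
      (T ^ (3 * W)) (aeval T R (u 0)))‖ ≤ 2 * t A := by
    refine inv_smul_le hτ _ ((norm_add_le _ _).trans ?_)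
    have e4 : ((3 * A + 1 : ℕ) : ℝ) * (t A ^ 2 / (3 * A + 1)) = t A ^ 2 := by
      push_cast; field_simp
    rw [mul_add, e4] at b2
    rw [Nat.cast_add, Nat.cast_mul, Nat.cast_ofNat, Nat.cast_one] at b1 b2
    linarith
  linarith

end Pool.Agent.H.MP_7c4fde_an
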