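import Pool.Agent.H.MP_7c4fde_an.D

set_option autoImplicit false

namespace Pool.Agent.H.MP_7c4fde_an

open Polynomial Filter Topology

lemma new_small (n : ℕ) (x : L1)
    (h : ∀ r, ∀ d ≤ a n r - 3 * V (n + r), ‖φ n r d x‖ < t (a n r)) {s r' i : ℕ} (hi : i ≤ V s)
    (hs : n < s) : ‖x (a s r' + i)‖ * (γ s i)⁻¹ ≤ (1 / 2) ^ (a s r' + i + 1) := by
  have e0 : s + r' = n + (s + r' - n) := by omega
  have h1 := a_lt e0 (by omega)
  have h2 := Vs_le s r'
  have h3 := a_ge s r'
  have h4 := V_pos s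
  have h5 := h (s + r' - n) (a s r' + i) (by rw [← e0]; omega)
  rw [φ, mk_apply, tsum_eq_single (a s r' + i), q_fan _ _ _ hi, if_pos ⟨by omega, rfl⟩,
    if_neg (by omega), sub_zero, norm_smul, norm_mul, norm_inv, norm_inv, norm_t, norm_γ] at h5
  · have h6 : 1 ≤ (t (a s r'))⁻¹ := one_le_inv₀ (t_pos _) |>.2 (t_le_one _)
    have h7 : t (a n (s + r' - n)) ≤ t (a s r' + i) := t_anti (by omega)
    have h8 := t_le_geom (a s r' + i)
    have h9 : 0 ≤ ‖x (a s r' + i)‖ * (γ s i)⁻¹ := by have := γ_pos s i; positivity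
    nlinarith
  · intro j hj
    rcases fan_or j with h | ⟨s'', r'', i'', h, rfl⟩
    · rw [q_lay _ _ _ h, if_neg (by omega), smul_zero]
    · rw [q_fan _ _ _ h, if_neg (by omega), if_neg, sub_zero, smul_zero]
      rintro ⟨k1, k2⟩
      have := V_mono k1
      rw [← e0] at this
      omega

lemma case2 (n : ℕ) (x : L1)
    (h : ∀ r, ∀ d ≤ a n r - 3 * V (n + r), ‖φ n r d x‖ < t (a n r)) : x = 0 := by
  set Cn := (t (V n) ^ (V n + 1))⁻¹ with hCn
  have hC0 : 0 ≤ Cn := by have := t_pos (V n); positivity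
  set c : ℕ → ℝ := fun j => (1 + Cn) * ‖x j‖ + (1 / 2) ^ (j + 1) with hc
  have hcs : Summable c := ((hasSum_norm x).summable.mul_left _).add
    ((summable_nat_add_iff 1).2 summable_geometric_two)
  have key : ∀ r, ‖x‖ ≤ (1 / 2) ^ (V (n + r) + 1) + ∑' k, c (k + (V (n + r) + 1)) := by
    intro r
    have hA := a_ge n r
    have hW := V_pos (n + r)
    have b1 : ‖S n r (V (n + r) + 1) x‖ ≤ (1 / 2) ^ (V (n + r) + 1) := by
      rw [S_apply]
      refine (sum_le _ _ (t (a n r)) fun k hk => ?_).trans ?_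
      · rw [norm_smul]
        have := mul_le_mul (h r k (by omega)).le (u_le_one k) (norm_nonneg _) (t_pos _).le
        linarith
      · have k1 : ((V (n + r) + 1 : ℕ) : ℝ) ≤ 2 ^ (V (n + r) + 1) := by
          exact_mod_cast (Nat.lt_two_pow_self).le
        have k2 : t (a n r) ≤ (1 / 2) ^ ((V (n + r) + 1) + (V (n + r) + 1)) :=
          (t_le_geom _).trans (pow_le_pow_of_le_one (by norm_num) (by norm_num) (by omega))
        calc _ ≤ (2 : ℝ) ^ (V (n + r) + 1) * (1 / 2) ^ ((V (n + r) + 1) + (V (n + r) + 1)) :=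
              mul_le_mul k1 k2 (t_pos _).le (by positivity)
          _ = _ := by rw [pow_add (1 / 2 : ℝ), ← mul_assoc, ← mul_pow]; norm_num
    have b2 : ‖(1 - S n r (V (n + r) + 1)) x‖ ≤ ∑' k, c (k + (V (n + r) + 1)) := by
      refine op_le _ x (fun j => if j < V (n + r) + 1 then 0 else c j) _ ?_ fun j => ?_
      · refine (hasSum_nat_add_iff' (V (n + r) + 1)).1 ?_
        rw [Finset.sum_eq_zero fun j hj => if_pos (Finset.mem_range.1 hj), sub_zero]
        simp only [show ∀ k, ¬ (k + (V (n + r) + 1) < V (n + r) + 1) from fun k => by omega,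
          if_false]
        exact ((summable_nat_add_iff (V (n + r) + 1)).2 hcs).hasSum
      · have hx := norm_nonneg (x j)
        have hg : (0 : ℝ) ≤ (1 / 2) ^ (j + 1) := by positivity
        change ‖x j‖ * ‖e j - S n r (V (n + r) + 1) (e j)‖ ≤ _
        rcases fan_or j with h1 | ⟨s, r', i, h1, rfl⟩
        · rw [S_lay _ _ _ h1]
          by_cases h2 : j < V (n + r) + 1
          · rw [if_pos ⟨by omega, h2⟩, if_pos h2, ← e_lay h1]; simp
          · rw [if_neg (by tauto), if_neg h2, sub_zero, norm_e]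
            simp only [hc]; nlinarith
        · rw [S_fan _ _ _ h1]
          by_cases h2 : a s r' + i < V (n + r) + 1
          · have h3 : a s r' + i < a n r := by omega
            rw [if_pos ⟨h3, h2⟩, if_pos ⟨old_of_lt h3, by omega⟩, if_pos h2, ← e_fan h1]; simp
          · rw [if_neg (by tauto), if_neg h2, zero_sub, sub_neg_eq_add]
            have hγ := γ_pos s i
            have k1 : ‖e (a s r' + i) + if s ≤ n + r ∧ i < V (n + r) + 1 then
                (γ s i : ℂ)⁻¹ • u i else 0‖ ≤ 1 + (γ s i)⁻¹ := by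
              refine (norm_add_le _ _).trans (add_le_add (norm_e _).le ?_)
              split_ifs
              · rw [norm_smul, norm_inv, norm_γ]
                exact mul_le_of_le_one_right (by positivity) (u_le_one i)
              · rw [norm_zero]; positivity
            refine (mul_le_mul_of_nonneg_left k1 hx).trans ?_
            simp only [hc]
            rcases le_or_gt s n with h3 | h3
            · have := V_mono h3
              have k2 : (γ s i)⁻¹ ≤ Cn :=
                inv_anti₀ (pow_pos (t_pos _) _) (γ_ge this (by omega))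
              nlinarith
            · have := new_small n x h (r' := r') h1 h3
              nlinarith
    have : x = S n r (V (n + r) + 1) x + (1 - S n r (V (n + r) + 1)) x := by simp
    calc ‖x‖ = ‖S n r (V (n + r) + 1) x + (1 - S n r (V (n + r) + 1)) x‖ := by rw [← this]
      _ ≤ _ := (norm_add_le _ _).trans (add_le_add b1 b2)
  have hl : Tendsto (fun N : ℕ => (1 / 2 : ℝ) ^ N + ∑' k, c (k + N)) atTop (𝓝 (0 + 0)) :=
    (tendsto_pow_atTop_nhds_zero_of_lt_one (by norm_num) (by norm_num)).add (tendsto_sum_nat_add c)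
  have hv : Tendsto (fun r => V (n + r) + 1) atTop atTop :=
    tendsto_atTop_mono (fun r => by have := V_ge (n + r); simp only [id]; omega) tendsto_id
  have := ge_of_tendsto' (hl.comp hv) key
  exact norm_le_zero_iff.1 (by simpa using this)

lemma cyclic (x : L1) (hx : x ≠ 0) (f : L1 →L[ℂ] ℂ) (h : ∀ k, f ((T ^ k) x) = 0) : f = 0 := by
  have hx0 : 0 < ‖x‖ := norm_pos_iff.2 hx
  set x' := (‖x‖ : ℂ)⁻¹ • x with hx'
  have h1 : ‖x'‖ ≤ 1 := inv_smul_le hx0 _ (by simp)
  have h2 : x' ≠ 0 := smul_ne_zero (inv_ne_zero (by exact_mod_cast hx0.ne')) hx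
  have h3 : ∀ k (p : ℂ[X]), f ((T ^ k) (aeval T p x')) = 0 := fun k p => by
    rw [aeval_apply p _ (Nat.lt_succ_self _), map_sum, map_sum]
    refine Finset.sum_eq_zero fun j _ => ?_
    rw [map_smul, map_smul, ← mul_apply_eq_comp, ← pow_add, hx', map_smul, map_smul, h]; simp
  have h4 : ∀ k, f (u k) = 0 := fun k => by
    have key : ∀ n, ‖f (u k)‖ ≤ ‖f‖ * (‖T ^ k‖ * (3 * (1 / 2) ^ n)) := fun n => by
      have : ∃ r, ∃ d ≤ a n r - 3 * V (n + r), t (a n r) ≤ ‖φ n r d x'‖ := by
        by_contra hn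
        push Not at hn
        exact h2 (case2 n x' hn)
      obtain ⟨r, hr⟩ := this
      obtain ⟨p, hp⟩ := case1 n r x' h1 hr
      have e1 : f (u k) = -f ((T ^ k) (aeval T p x' - u 0)) := by
        rw [map_sub, map_sub, h3, Tpow_u]; simp
      rw [e1, norm_neg]
      refine (f.le_opNorm _).trans (mul_le_mul_of_nonneg_left (((T ^ k).le_opNorm _).trans
        (mul_le_mul_of_nonneg_left (hp.trans ?_) (norm_nonneg _))) (norm_nonneg _))
      have := V_ge n
      have : t (V n) ≤ (1 / 2) ^ n :=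
        (t_le_geom _).trans (pow_le_pow_of_le_one (by norm_num) (by norm_num) (by omega))
      linarith
    have hl := (((tendsto_pow_atTop_nhds_zero_of_lt_one (r := (1 / 2 : ℝ)) (by norm_num)
      (by norm_num)).const_mul 3).const_mul ‖T ^ k‖).const_mul ‖f‖
    have := ge_of_tendsto' hl key
    exact norm_le_zero_iff.1 (by simpa using this)
  have h5 : ∀ j, ‖f (e j)‖ ≤ 0 := fun j => by
    rcases fan_or j with h | ⟨s, r, i, h, rfl⟩
    · rw [e_lay h, map_smul, h4]; simp
    · rw [e_fan h, map_sub, map_smul, map_smul, h4, h4]; simp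
  ext y
  have := op_le' f 0 h5 y
  simpa using this

lemma decay_sum (z : ℂ) : Summable fun k => ‖z ^ k • T ^ k‖ := by
  refine Summable.of_nonneg_of_le (fun _ => norm_nonneg _) (fun k => ?_)
    ((Real.summable_pow_div_factorial ‖z‖).mul_left 1152)
  rw [norm_smul, norm_pow, mul_comm, mul_div_assoc', mul_div_right_comm]
  refine mul_le_mul_of_nonneg_right ((Tpow_decay k).trans ?_) (by positivity)
  have h1 : (k.factorial : ℝ) ≤ (k + 1).factorial := by
    exact_mod_cast Nat.factorial_le (by omega)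
  have h2 : (1 : ℝ) ≤ k.factorial := by exact_mod_cast Nat.factorial_pos k
  gcongr
  nlinarith

instance : Nontrivial L1 := ⟨e 0, 0, fun h => by simpa [h] using norm_e 0⟩

lemma spec_T : spectrum ℂ T = {0} := by
  have h : ∀ z ∈ spectrum ℂ T, z = 0 := fun z hz => by
    by_contra h0
    have h1 := (decay_sum z⁻¹).tendsto_atTop_zero
    obtain ⟨k, hk⟩ := (h1.eventually (gt_mem_nhds one_pos)).exists
    have h2 := spectrum.norm_le_norm_of_mem (spectrum.pow_mem_pow T k hz)
    rw [norm_smul, inv_pow, norm_inv, inv_mul_lt_iff₀ (norm_pos_iff.2 (pow_ne_zero _ h0))] at hk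
    linarith
  obtain ⟨z, hz⟩ := spectrum.nonempty T
  exact Set.eq_singleton_iff_unique_mem.2 ⟨h z hz ▸ hz, h⟩

lemma no_rank_one (x : L1) (hx : x ≠ 0) (f : L1 →L[ℂ] ℂ) (hf : f ≠ 0) :
    spectrum ℂ (T + f.smulRight x) ≠ {0} := by
  intro hs
  set b : ℕ → ℂ := fun n => Nat.casesOn n 1 fun k => -f ((T ^ k) x) with hb
  have hbn : ∀ n, ‖b n‖ ≤ (1 + ‖f‖ * 1152 * ‖x‖) / (n.factorial : ℝ) ^ 2 := fun n => by
    cases n with
    | zero => simp [hb]; positivity
    | succ k =>
      simp only [hb, norm_neg]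
      refine (f.le_opNorm _).trans ?_
      calc _ ≤ ‖f‖ * (1152 / ((k + 1).factorial : ℝ) ^ 2 * ‖x‖) := by
            gcongr
            exact ((T ^ k).le_opNorm _).trans (by gcongr; exact Tpow_decay k)
        _ = ‖f‖ * 1152 * ‖x‖ / ((k + 1).factorial : ℝ) ^ 2 := by ring
        _ ≤ _ := by gcongr; linarith
  refine hf (cyclic x hx f fun k => neg_eq_zero.1 (coeff_zero_of_ne b _ hbn (fun z hz => ?_) k))
  have h1 : HasSum (fun k => z ^ k • (T ^ k) x) (∑' k, z ^ k • (T ^ k) x) := by
    have := ((ContinuousLinearMap.apply ℂ L1 x).summable (decay_sum z).of_norm)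
    simpa using this.hasSum
  set v := ∑' k, z ^ k • (T ^ k) x with hv
  have h2 : HasSum (fun k => b (k + 1) * z ^ (k + 1)) (-(z * f v)) := by
    have := ((f.hasSum h1).mul_left z).neg
    have e0 : (fun k => b (k + 1) * z ^ (k + 1)) = fun k => -(z * f (z ^ k • (T ^ k) x)) := by
      funext k
      rw [map_smul, smul_eq_mul]
      change -f ((T ^ k) x) * z ^ (k + 1) = _
      ring
    rw [e0]; exact this
  have h3 := (hasSum_nat_add_iff (f := fun n => b n * z ^ n) 1).1 h2
  rw [h3.tsum_eq] at hz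
  have h4 : z * f v = 1 := by
    simp [hb] at hz
    linear_combination -hz
  have hz0 : z ≠ 0 := by rintro rfl; simp at h4
  have h5 : v = x + z • T v := by
    have k1 := (T.hasSum h1).const_smul z
    have k2 : HasSum (fun k => z ^ (k + 1) • (T ^ (k + 1)) x) (z • T v) := by
      convert k1 using 2 with k
      rw [map_smul, smul_smul, ← pow_succ', pow_succ' T, mul_apply_eq_comp]
    have k3 := (hasSum_nat_add_iff (f := fun k => z ^ k • (T ^ k) x) 1).1 k2
    simpa [add_comm] using h1.unique k3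
  have h6 : z⁻¹ ∉ spectrum ℂ (T + f.smulRight x) := by
    rw [hs]; simpa using hz0
  rw [spectrum.notMem_iff] at h6
  obtain ⟨U, hU⟩ := h6
  have h7 : (U : L1 →L[ℂ] L1) v = 0 := by
    rw [hU]
    have : f v = z⁻¹ := eq_inv_of_mul_eq_one_right h4
    simp only [Algebra.algebraMap_eq_smul_one, sub_apply, add_apply, smul_apply, one_apply_eq_self,
      ContinuousLinearMap.smulRight_apply, this]
    conv_lhs => enter [1]; rw [h5]
    rw [smul_add, inv_smul_smul₀ hz0]
    abel
  have h8 : v = 0 := by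
    have : ((U⁻¹ : (L1 →L[ℂ] L1)ˣ) * U : L1 →L[ℂ] L1) v = v := by simp
    rw [← this, mul_apply_eq_comp, h7, map_zero]
  rw [h8] at h4
  simp at h4

lemma not_fin : ¬ FiniteDimensional ℂ L1 := by
  intro h
  have hli : LinearIndependent ℂ e := by
    rw [linearIndependent_iff']
    intro s g hg i hi
    have := congrArg (lp.evalCLM ℂ (fun _ : ℕ => ℂ) 1 i) hg
    rw [map_sum, map_zero, Finset.sum_eq_single i] at this
    · simpa [e, lp.evalCLM] using this
    · intro j _ hj
      simp [e, lp.evalCLM, hj.symm]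
    · exact fun h => absurd hi h
  have := hli.finite
  exact _root_.not_finite ℕ

lemma sepL1 : TopologicalSpace.SeparableSpace L1 := by
  have h : Dense (Submodule.span ℂ (Set.range e) : Set L1) := fun x =>
    mem_closure_of_tendsto (hasSum_e x).tendsto_sum_nat (Eventually.of_forall fun n =>
      Submodule.sum_mem _ fun j _ => Submodule.smul_mem _ _ (Submodule.subset_span ⟨j, rfl⟩))
  have h2 := (Set.countable_range e).isSeparable.span (R := ℂ)
  exact h.isSeparable_iff.1 h2

end Pool.Agent.H.MP_7c4fde_an
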